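import Pool.Agent.H334R5.Cnt.Main

/-!
# Approximate linear relations between numbers of satisfying assignments

`numSat φ` is the number of the assignments of the variables occurring in the CNF formula `φ` which
satisfy `φ`. `FPoly` is computability in deterministic polynomial time (Mathlib's
`Turing.TM2ComputableInPolyTime`, through `Pool.Agent.NPC.PolyTime`) for the standard encodings.
The notions are in `Pool.Agent.H334R5.Cnt.Defs`.
-/

set_option autoImplicit false

namespace Pool.Agent.Results.MP_4ed1f9_lc.ApproximateRelations

open Pool.Agent.NPC Pool.Agent.H334R5.Cnt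

/-- The number of satisfying assignments of CNF formulas can be computed in polynomial time if and
only if for some `ε > 0` some polynomial-time algorithm finds, for any list of polynomially many
CNF formulas `φ₁, …, φₘ` on the same `v` variables, integers `c₁, …, cₘ`, not all `0`, of its own
choice, and an integer `c₀` with `|∑ cᵢ #φᵢ - c₀| ≤ 2 ^ (v - v ^ ε) * ∑ |cᵢ|`. -/
theorem result :
    FPoly numSat ↔
      ∃ (ε : ℝ) (q : Polynomial ℕ) (R : List CNF → ℤ × List ℤ), 0 < ε ∧ RelationFinder ε q R := by
  constructor
  · intro h
    obtain ⟨R, hR⟩ := relationFinder_of_poly h.poly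
    exact ⟨1, 0, R, one_pos, hR⟩
  · rintro ⟨ε, q, R, hε, hR⟩
    exact fpoly_of_poly (numSat_poly hε hR)

end Pool.Agent.Results.MP_4ed1f9_lc.ApproximateRelations
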