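import Pool.Agent.H437R3.SC.Easy

/-!
# Exact counting for 2-CNF formulas needs many arbitrary gates, next to AND, OR and MOD-p gates

A CNF formula with the variables `V` and the clauses `M` is a function `F : M → Finset (V × Bool)`.
It is given to a circuit by its incidence bits, and the circuit has to output the binary digits of
the number of satisfying assignments.
-/

namespace Pool.Agent.Results.MP_4ed1f9_lc.FewArbitraryGates

open H746R3.Inv Pool.Agent.H437R3.SC

/-- * Numbers of satisfying assignments have at most `|V| + 1` binary digits, and one arbitrary gate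
  for every digit suffices to compute them, at depth one.
* For every `n` there are 2-CNF formulas `F y`, for all strings `y` of `n` bits, with the same
  `24 n + 24` variables, all of which occur, and `36 n + 30` clauses, such that every bit of `F y`
  depends on at most one bit of `y`, with the following property. Let `p` be any prime, and let `C`
  be a circuit of depth at most `h` with at most `2 ^ ℓ` gates: AND, OR and MOD-p gates, and `t`
  gates that may be arbitrary Boolean functions of any number of arguments. If
  `10 ^ 10 (t + ℓ) (4 p ℓ) ^ (2 h) ≤ n`, then `C` outputs the digits of the number of satisfying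
  assignments of `F y` for at most `2 ^ (n - ℓ)` of the `2 ^ n` strings `y`. -/
theorem result :
    (∀ (V M : Type) [Fintype V] [DecidableEq V] [Fintype M],
      (∀ F : M → Finset (V × Bool), numSat F < 2 ^ (Fintype.card V + 1)) ∧
      ∃ C : Circuit (M × V × Bool) (Fin (Fintype.card V + 1)), C.DepthLE 1 ∧
        C.G = Fintype.card V + 1 ∧
        ∀ (p : ℕ) (F : M → Finset (V × Bool)), C.Computes p (bits F) (digits F)) ∧
    ∀ n : ℕ, ∃ (V M : Type) (_ : Fintype V) (_ : DecidableEq V) (_ : Fintype M)
      (F : (Fin n → Bool) → M → Finset (V × Bool)),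
      Fintype.card V = 24 * n + 24 ∧ Fintype.card M = 36 * n + 30 ∧
      (∀ y c, (F y c).card ≤ 2) ∧ (∀ y v, ∃ c b, (v, b) ∈ F y c) ∧
      (∀ q, (∀ y y', bits (F y) q = bits (F y') q) ∨
        ∃ i, ∀ y y' : Fin n → Bool, y i = y' i → bits (F y) q = bits (F y') q) ∧
      ∀ p : ℕ, p.Prime → ∀ h ℓ : ℕ, 1 ≤ ℓ →
        ∀ C : Circuit (M × V × Bool) (Fin (Fintype.card V + 1)), C.DepthLE h → C.G ≤ 2 ^ ℓ →
        10 ^ 10 * (C.wildGates + ℓ) * (4 * p * ℓ) ^ (2 * h) ≤ n →
        2 ^ ℓ * Nat.card {y : Fin n → Bool // C.Computes p (bits (F y)) (digits (F y))} ≤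
          2 ^ n :=
  ⟨fun V M _ _ _ => ⟨numSat_lt, easy V M⟩, fun n =>
    ⟨Vr n, Cl n, inferInstance, inferInstance, inferInstance, frm n, card_Vr n, card_Cl n,
      frm_card n, frm_occurs, frm_local, fun p hp h ℓ hℓ C hC hG hn => hard p hp h n ℓ hℓ C hC hG hn⟩⟩

end Pool.Agent.Results.MP_4ed1f9_lc.FewArbitraryGates
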