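import Pool.Agent.H440P.Rob2

/-!
# The sets on which random changes of an oracle make counting hard

For a set `D` of strings the following are equivalent: `D` is not sparse; for every oracle `B`, if
the part of `B` in `D` is replaced by a random subset of `D`, then relative to the new oracle, with
probability one, the last binary digit of some function in `#P` is not in `PP^PH` with polynomial
advice. If `D` is not sparse then, with probability one, some function in `#P` is not computable in
polynomial time. If `D` is sparse then there is an oracle `B` such that after every change of `B`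
on `D` all binary digits of all functions in `#P` are in `P` with polynomial advice.
-/

set_option autoImplicit false

namespace Pool.Agent.Results.MP_4ed1f9_lc.NonSparseModifications

open Pool.Agent.NPC (unpair)
open Pool.Agent.H249R3.Sub Pool.Agent.H620R2.Gauge Pool.Agent.H943R3.PP
open Pool.Agent.H274R3.Sharp (IsSharpP IsFPNum)
open Pool.Agent.H628R3.RO (randomOracle)

theorem result (D : Set (List Bool)) :
    (¬ Sparse D ↔ ∀ B : Oracle, ∀ᵐ R ∂randomOracle, ∃ g : List Bool → ℕ,
      IsSharpP (patch D R B) g ∧ ¬ WithAdvice (IsPPPH (patch D R B)) {x | Odd (g x)}) ∧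
    (¬ Sparse D → ∀ B : Oracle, ∀ᵐ R ∂randomOracle, ∃ g : List Bool → ℕ,
      IsSharpP (patch D R B) g ∧ ¬ IsFPNum (patch D R B) g) ∧
    (Sparse D → ∃ B : Oracle, ∀ (R : Oracle) (g : List Bool → ℕ), IsSharpP (patch D R B) g →
      WithAdvice (IsP (patch D R B)) {y | (g (unpair y).1).testBit (unpair y).2.length = true}) := by
  have h1 : ¬ Sparse D → ∀ B : Oracle, ∀ᵐ R ∂randomOracle, ∃ g : List Bool → ℕ,
      IsSharpP (patch D R B) g ∧ ¬ WithAdvice (IsPPPH (patch D R B)) {x | Odd (g x)} := by
    intro hD B
    filter_upwards [Pool.Agent.H440P.ae_patch2 D B hD] with R hR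
    exact ⟨_, Pool.Agent.H440P.cntC_sharp _, hR⟩
  refine ⟨⟨h1, fun h hD => ?_⟩, fun hD B => ?_, fun hD => ?_⟩
  · obtain ⟨B, hB⟩ := Pool.Agent.H440P.Rob.robust_sharp D hD
    obtain ⟨R, g, hg, hg2⟩ := (h B).exists
    exact hg2 (Pool.Agent.H440P.Rob.WithAdvice.mono
      (fun L hL => isPPPH_of_isPP (isPP_of_isP hL)) (hB R g hg).2)
  · filter_upwards [h1 hD B] with R hR
    obtain ⟨g, hg, hg2⟩ := hR
    exact ⟨g, hg, fun h => hg2 (withAdvice_of_isPPPH (isPPPH_of_isPP (isPP_of_isP
      (Pool.Agent.H274R3.Sharp.IsFPNum.parity h))))⟩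
  · obtain ⟨B, hB⟩ := Pool.Agent.H440P.Rob.robust_sharp D hD
    exact ⟨B, fun R g hg => (hB R g hg).1⟩

end Pool.Agent.Results.MP_4ed1f9_lc.NonSparseModifications
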